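import Pool.Agent.Q264.Uni13

/-!
# The level sets at the de Vries-Komornik numbers up to the largest value are uncountable

`U x` is the set of the bases `q` in `(1, 2]` in which `x` has exactly one expansion with digits
`0`, `1`; `qs x` is its infimum and `L q = {x > 0 : qs x = q}`. A de Vries-Komornik number is the
right end point `q` of a gap `(q0, q)` of the closure of `U 1`, with `q0` in the closure of `U 1` but
not in `U 1`, and `q` in `U 1`. The largest value `q_max` of `qs` is its value at `(√5 - 1) / 2`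
(known, see the problem). For every de Vries-Komornik number `q ≤ q_max` the level set `L q` is
uncountable, in particular infinite.
-/

set_option autoImplicit false

namespace Pool.Agent.Results.MP_bdab2f_nt.UncountableLevelSets

/-- `c` is a `q`-expansion of `x` with digits `0` (`false`) and `1` (`true`); the digit `d_(i+1)` of
the problem is `c i` -/
def IsExp (q x : ℝ) (c : ℕ → Bool) : Prop :=
  x = ∑' i : ℕ, (if c i then (1 : ℝ) else 0) / q ^ (i + 1)

/-- the univoque bases of `x` -/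
def U (x : ℝ) : Set ℝ := {q | 1 < q ∧ q ≤ 2 ∧ ∃! c : ℕ → Bool, IsExp q x c}

/-- the smallest univoque base -/
noncomputable def qs (x : ℝ) : ℝ := sInf (U x)

/-- the level set at height `q` -/
def L (q : ℝ) : Set ℝ := {x | 0 < x ∧ qs x = q}

/-- the de Vries-Komornik numbers -/
def IsDVK (q : ℝ) : Prop :=
  ∃ q0, q0 < q ∧ q0 ∈ closure (U 1) \ U 1 ∧ q ∈ U 1 ∧ ∀ t, q0 < t → t < q → t ∉ closure (U 1)

/-- the largest value of `qs`, which is its value at `(√5 - 1) / 2` -/
noncomputable def qmax : ℝ := qs ((Real.sqrt 5 - 1) / 2)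

lemma isExp_iff {q x : ℝ} {c : ℕ → Bool} : IsExp q x c ↔ Q264.Uni.ev q c = x := by
  unfold IsExp Q264.Uni.ev Q264.Uni.bt
  have : ∀ i : ℕ, (if c i then (1 : ℝ) else 0) / q ^ (i + 1) =
      (if c i then (1 : ℝ) else 0) * (q⁻¹) ^ (i + 1) := by
    intro i; rw [inv_pow, div_eq_mul_inv]
  simp only [this]
  exact eq_comm

lemma U_eq (x : ℝ) : U x = Q264.Uni.UU x := by
  ext q
  rw [Q264.Uni.UU_iff]
  unfold U
  simp only [Set.mem_ofPred_eq, isExp_iff]

lemma Lv_sub (q : ℝ) : Q264.Uni.Lv q ⊆ L q := by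
  rintro x ⟨h1, h2⟩
  refine ⟨h1, ?_⟩
  unfold qs
  rw [U_eq]
  exact h2.csInf_eq

lemma golden : 0 < (Real.sqrt 5 - 1) / 2 ∧
    ((Real.sqrt 5 - 1) / 2) ^ 2 + (Real.sqrt 5 - 1) / 2 = 1 := by
  have h5 : Real.sqrt 5 ^ 2 = 5 := Real.sq_sqrt (by norm_num)
  have h6 : 1 < Real.sqrt 5 := by
    rw [Real.lt_sqrt (by norm_num)]; norm_num
  constructor
  · linarith
  · nlinarith

lemma qmax_bounds : 1.888452 ≤ qmax ∧ qmax < 1.8884534 := by
  obtain ⟨s, hs, hs2⟩ := Q264.Uni.golden_base golden.1 golden.2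
  unfold qmax qs
  rw [U_eq]
  constructor
  · exact le_csInf ⟨s, hs⟩ fun q hq => (Q264.Uni.golden_lower golden.1 golden.2 hq).le
  · exact lt_of_le_of_lt (csInf_le (Q264.Uni.UU_bdd _) hs) hs2

lemma main {q : ℝ} (h : IsDVK q) (hq : q ≤ qmax) : ¬ (L q).Countable := by
  obtain ⟨q0, h1, h2, h3, h4⟩ := h
  rw [U_eq] at h2 h3 h4
  have hq1 : 1 < q := h3.1
  have hqm := qmax_bounds.2
  have hq2 : q < 2 := by norm_num at hqm; linarith
  have hcl : closure (Q264.Uni.UU 1) ⊆ Set.Ici 1 :=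
    closure_minimal (fun t ht => ht.1.le) isClosed_Ici
  obtain ⟨a, m, D⟩ := Q264.Uni.dat_of_iso (hcl h2.1) h1 hq2 h3
    (fun t ht1 ht2 htU => h4 t ht1 ht2 (subset_closure htU))
  rcases le_or_gt q 1.86 with h5 | h5
  · have hy0 : 0 < q * (q - 1) := mul_pos (by linarith) (by linarith)
    have hy1 : q * (q - 1) ≤ 1.6 := by
      norm_num at h5 ⊢
      nlinarith
    have hp := Q264.Uni.pre1 D (by
      generalize q * (q - 1) = y at hy0 hy1
      norm_num at hy1
      nlinarith)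
    obtain ⟨S, hS, hunc, _⟩ := Q264.Uni.cantor_summary D hp
    exact fun h6 => hunc (h6.mono (hS.trans (Lv_sub q)))
  · obtain ⟨a0, a1, a2⟩ := Q264.Uni.three_ones hq1 (by norm_num at h5 ⊢; linarith) D.adm D.val
    have hlo : q ≤ 1.888452 := by
      by_contra hcon
      push Not at hcon
      exact Q264.Uni.no_UU hcon.le (by linarith) h3
    have hp := Q264.Uni.pre4 D a0 a1 a2 (Q264.Uni.f3_ge hq1 hlo)
    obtain ⟨S, hS, hunc, _⟩ := Q264.Uni.cantor_summary D hp
    exact fun h6 => hunc (h6.mono (hS.trans (Lv_sub q)))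

theorem result :
    (1.888452 ≤ qmax ∧ qmax < 1.8884534) ∧
    (∀ q : ℝ, IsDVK q → 1.87064 < q → q ≤ qmax → (L q).Infinite) ∧
    ∀ q : ℝ, IsDVK q → q ≤ qmax → ¬ (L q).Countable :=
  ⟨qmax_bounds, fun _ h _ hq hfin => main h hq hfin.countable, fun _ h hq => main h hq⟩

end Pool.Agent.Results.MP_bdab2f_nt.UncountableLevelSets
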